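import Pool.Agent.Helper937.Spl2
import Pool.Agent.Helper937.SplZ

set_option autoImplicit false

open Cardinal Pool.Agent.Helper937.Spl Pool.Agent.Helper937.SplZ

universe u

namespace Pool.Agent.Results.MP_d41870_lc.ConsistentlyYes

/-- The forcing conditions: finite partial functions from triples of 0-1 sequences to ℕ (as
finite sets of pairs), ordered by extension. -/
abbrev Cond : Type := Fn ((ℕ → Bool) × (ℕ → Bool) × (ℕ → Bool))

/-- The poset is ccc: every antichain is countable. -/
def CCC : Prop :=
  ∀ A : Set Cond, (∀ a ∈ A, ∀ b ∈ A, a ≠ b → ¬ ∃ c, ext a c ∧ ext b c) → A.Countable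

/-- There are at most 2^ℵ₀ names for subsets of ℕ, up to equivalence: the names X x, for x in the
ground model set of 0-1 sequences, are all of them.  So in the extension 2^ℵ₀ is the size of
the set ℕ → Bool of the ground model. -/
def FewNames : Prop :=
  ∃ X : (ℕ → Bool) → ℕ → Set Cond, ∀ Y : ℕ → Set Cond, ∃ x, ∀ n r,
    Forces (X x n) r ↔ Forces (Y n) r

/-- Part 1: every condition r that forces that H is a graph on L with uncountable chromatic number
and f is a proper colouring of H with colours in the ground model set ℕ → Bool, forces that H splits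
to D parts, for every nonempty countable D.  Part 2 (ZFC): a graph with chromatic number above
2^ℵ₀ and at most κ, where no cardinal ≤ κ is inaccessible, splits to n parts for every n > 0. -/
theorem result :
    (CCC ∧ FewNames ∧
      ∀ (L : Type) (H : L → L → Set Cond) (f : L → (ℕ → Bool) → Set Cond) (r : Cond),
        IsGraph H r → IsFun f r → IsProper H f r → UncChrom H r →
        ∀ D : Type, Nonempty D → Countable D →
          ∃ K : D → L → L → Set Cond, Splits H K r) ∧
    (∀ (V : Type u) (G : SimpleGraph V) (κ : Cardinal.{u}),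
      (∀ μ : Cardinal.{u}, μ ≤ κ → ¬ μ.IsInaccessible) →
      ¬ ColorableBy G (2 ^ (ℵ₀ : Cardinal.{u})) → ColorableBy G κ →
      ∀ n : ℕ, 0 < n → SplitsTo G (Fin n)) := by
  refine ⟨⟨fn_ccc _, few_names, ?_⟩, fun V G κ hno hlow hup n hn =>
    (zfc.2 V G ℵ₀ κ le_rfl (fun μ _ h => hno μ h) hlow (hup.mono (cantor κ).le)).1 n hn⟩
  intro L H f r hG hf hP hU D hD hDc
  obtain ⟨K, hK⟩ := splits_nat H f r hG hf hP hU
  obtain ⟨g, hg⟩ := exists_surjective_nat D
  exact ⟨_, Splits.map H K r g hg hK⟩

end Pool.Agent.Results.MP_d41870_lc.ConsistentlyYes
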